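import Mathlib

/-!
# H51.K4S.Alon: independent sets in triangle-free graphs (Ajtai-Komlos-Szemeredi, Alon's proof)
-/

namespace Pool.Agent.H51.K4S

open Finset

variable {V : Type*} [Fintype V] [DecidableEq V]

/-- The neighbours of v. -/
noncomputable def nb (G : SimpleGraph V) (v : V) : Finset V := by
  classical exact univ.filter (fun w => G.Adj v w)

lemma mem_nb (G : SimpleGraph V) (v w : V) : w ∈ nb G v ↔ G.Adj v w := by
  classical simp [nb]

/-- s is independent. -/
def Ind (G : SimpleGraph V) (s : Finset V) : Prop := ∀ x ∈ s, ∀ y ∈ s, ¬ G.Adj x y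

/-- All independent sets. -/
noncomputable def inds (G : SimpleGraph V) : Finset (Finset V) := by
  classical exact univ.powerset.filter (fun s => Ind G s)

lemma mem_inds (G : SimpleGraph V) (s : Finset V) : s ∈ inds G ↔ Ind G s := by
  classical simp [inds]

lemma real_ineq (d : ℝ) (hd : 1 ≤ d) (x : ℕ) :
    (Real.log d / 8) * ((2 : ℝ) ^ x + 1) ≤ d + (x : ℝ) * 2 ^ x / 2 := by
  have hl0 : 0 ≤ Real.log d := Real.log_nonneg hd
  have h2x : (1 : ℝ) ≤ 2 ^ x := one_le_pow₀ (by norm_num)
  have hs : 0 < Real.sqrt d := Real.sqrt_pos.mpr (by linarith)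
  have hs1 : 1 ≤ Real.sqrt d := by
    rw [Real.one_le_sqrt]; exact hd
  have hss : Real.sqrt d * Real.sqrt d = d := Real.mul_self_sqrt (by linarith)
  have hlog : Real.log d = 2 * Real.log (Real.sqrt d) := by
    conv_lhs => rw [← hss]
    rw [Real.log_mul hs.ne' hs.ne']; ring
  have hls : Real.log (Real.sqrt d) ≤ Real.sqrt d - 1 := Real.log_le_sub_one_of_pos hs
  rcases le_total ((2 : ℝ) ^ x) (Real.sqrt d) with h | h
  · have hx0 : (0 : ℝ) ≤ (x : ℝ) * 2 ^ x / 2 := by positivity
    have h1 : Real.log d / 8 ≤ Real.sqrt d / 4 := by linarith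
    have h2 : (2 : ℝ) ^ x + 1 ≤ 2 * Real.sqrt d := by linarith
    have h3 : (Real.log d / 8) * ((2 : ℝ) ^ x + 1) ≤ (Real.sqrt d / 4) * (2 * Real.sqrt d) := by
      apply mul_le_mul h1 h2 (by positivity) (by positivity)
    nlinarith
  · have h1 : Real.log (Real.sqrt d) ≤ x * Real.log 2 := by
      have := Real.log_le_log hs h
      rwa [Real.log_pow] at this
    have hl2 : Real.log 2 ≤ 1 := by
      have := Real.log_le_sub_one_of_pos (show (0 : ℝ) < 2 by norm_num)
      linarith
    have hx : (0 : ℝ) ≤ (x : ℝ) := Nat.cast_nonneg x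
    have h2 : Real.log d ≤ 2 * x := by nlinarith
    have h3 : (Real.log d / 8) * ((2 : ℝ) ^ x + 1) ≤ (2 * x / 8) * (2 * 2 ^ x) := by
      apply mul_le_mul (by linarith) (by linarith) (by positivity) (by positivity)
    have : (2 * (x : ℝ) / 8) * (2 * 2 ^ x) = x * 2 ^ x / 2 := by ring
    linarith

lemma sum_powerset_card (X : Finset V) :
    ∑ S ∈ X.powerset, (S.card : ℝ) = (X.card : ℝ) * 2 ^ X.card / 2 := by
  classical
  induction X using Finset.induction_on with
  | empty => simp
  | insert a s ha ih =>
    rw [Finset.sum_powerset_insert ha, ih]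
    have : ∑ t ∈ s.powerset, ((insert a t).card : ℝ) = ∑ t ∈ s.powerset, ((t.card : ℝ) + 1) := by
      apply Finset.sum_congr rfl
      intro t ht
      have : a ∉ t := fun h => ha (Finset.mem_powerset.mp ht h)
      rw [Finset.card_insert_of_notMem this]; push_cast; ring
    rw [this, Finset.sum_add_distrib, ih, Finset.card_insert_of_notMem ha]
    simp only [Finset.sum_const, Finset.card_powerset, nsmul_eq_mul, mul_one]
    push_cast
    ring

/-- one vertex: average of d [v in W] + |N(v) ∩ W|. -/
lemma one_vertex (G : SimpleGraph V) (htf : ∀ a b c, G.Adj a b → G.Adj b c → G.Adj a c → False)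
    (d : ℝ) (hd : 1 ≤ d) (v : V) :
    (Real.log d / 8) * ((inds G).card : ℝ) ≤
      ∑ W ∈ inds G, (d * (if v ∈ W then 1 else 0) + ((nb G v ∩ W).card : ℝ)) := by
  classical
  set φ : Finset V → Finset V := fun W => W \ insert v (nb G v) with hφ
  set T : Finset (Finset V) := (inds G).image φ with hT
  have hmaps : ∀ W ∈ inds G, φ W ∈ T := fun W hW => Finset.mem_image_of_mem _ hW
  have hcard : ((inds G).card : ℝ) = ∑ W0 ∈ T, (((inds G).filter (fun W => φ W = W0)).card : ℝ) := by
    rw [Finset.card_eq_sum_card_fiberwise hmaps]; push_cast; rfl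
  rw [hcard, Finset.mul_sum, ← Finset.sum_fiberwise_of_maps_to hmaps]
  apply Finset.sum_le_sum
  intro W0 hW0
  -- the fibre
  obtain ⟨W1, hW1, hW1e⟩ := Finset.mem_image.mp hW0
  have hW1i : Ind G W1 := (mem_inds G W1).mp hW1
  have hW0sub : W0 ⊆ W1 := by rw [← hW1e]; exact Finset.sdiff_subset
  have hW0i : Ind G W0 := fun x hx y hy => hW1i x (hW0sub hx) y (hW0sub hy)
  have hv0 : v ∉ W0 := by rw [← hW1e]; simp [hφ]
  have hn0 : ∀ w ∈ W0, ¬ G.Adj v w := by
    intro w hw hvw
    rw [← hW1e] at hw
    simp only [hφ, Finset.mem_sdiff, Finset.mem_insert, mem_nb, not_or] at hw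
    exact hw.2.2 hvw
  set X : Finset V := (nb G v).filter (fun x => ∀ w ∈ W0, ¬ G.Adj x w) with hX
  have hfib : (inds G).filter (fun W => φ W = W0) =
      insert (insert v W0) (X.powerset.image (fun S => W0 ∪ S)) := by
    ext W
    simp only [Finset.mem_filter, mem_inds, Finset.mem_insert, Finset.mem_image,
      Finset.mem_powerset]
    constructor
    · rintro ⟨hWi, hWe⟩
      by_cases hvW : v ∈ W
      · left
        ext w
        constructor
        · intro hw
          by_cases hwv : w = v
          · exact Finset.mem_insert.mpr (Or.inl hwv)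
          · apply Finset.mem_insert_of_mem
            rw [← hWe]
            simp only [hφ, Finset.mem_sdiff, Finset.mem_insert, mem_nb, not_or]
            exact ⟨hw, hwv, hWi v hvW w hw⟩
        · intro hw
          rcases Finset.mem_insert.mp hw with h | h
          · rw [h]; exact hvW
          · rw [← hWe] at h; exact (Finset.mem_sdiff.mp h).1
      · right
        refine ⟨W ∩ nb G v, ?_, ?_⟩
        · intro x hx
          obtain ⟨hxW, hxn⟩ := Finset.mem_inter.mp hx
          rw [hX, Finset.mem_filter]
          refine ⟨hxn, fun w hw => ?_⟩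
          rw [← hWe] at hw
          exact hWi x hxW w (Finset.mem_sdiff.mp hw).1
        · ext w
          simp only [Finset.mem_union, Finset.mem_inter]
          constructor
          · rintro (h | h)
            · rw [← hWe] at h; exact (Finset.mem_sdiff.mp h).1
            · exact h.1
          · intro hw
            by_cases hwn : w ∈ nb G v
            · exact Or.inr ⟨hw, hwn⟩
            · left
              rw [← hWe]
              simp only [hφ, Finset.mem_sdiff, Finset.mem_insert, not_or]
              exact ⟨hw, fun h => hvW (h ▸ hw), hwn⟩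
    · rintro (h | ⟨S, hS, h⟩)
      · subst h
        constructor
        · intro x hx y hy hxy
          rcases Finset.mem_insert.mp hx with h | h <;> rcases Finset.mem_insert.mp hy with h' | h'
          · rw [h, h'] at hxy; exact G.loopless.irrefl v hxy
          · rw [h] at hxy; exact hn0 y h' hxy
          · rw [h'] at hxy; exact hn0 x h hxy.symm
          · exact hW0i x h y h' hxy
        · simp only [hφ]
          ext w
          simp only [Finset.mem_sdiff, Finset.mem_insert, mem_nb, not_or]
          constructor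
          · rintro ⟨h | h, h1, h2⟩
            · exact absurd h h1
            · exact h
          · intro hw
            exact ⟨Or.inr hw, fun h => hv0 (h ▸ hw), hn0 w hw⟩
      · subst h
        have hSn : ∀ x ∈ S, G.Adj v x ∧ ∀ w ∈ W0, ¬ G.Adj x w := by
          intro x hx
          have := hS hx
          rw [hX, Finset.mem_filter, mem_nb] at this
          exact this
        constructor
        · intro x hx y hy hxy
          rcases Finset.mem_union.mp hx with h | h <;> rcases Finset.mem_union.mp hy with h' | h'
          · exact hW0i x h y h' hxy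
          · exact (hSn y h').2 x h hxy.symm
          · exact (hSn x h).2 y h' hxy
          · exact htf v x y (hSn x h).1 hxy (hSn y h').1
        · simp only [hφ]
          ext w
          simp only [Finset.mem_sdiff, Finset.mem_union, Finset.mem_insert, mem_nb, not_or]
          constructor
          · rintro ⟨h | h, h1, h2⟩
            · exact h
            · exact absurd (hSn w h).1 h2
          · intro hw
            exact ⟨Or.inl hw, fun h => hv0 (h ▸ hw), hn0 w hw⟩
  have hinj : Set.InjOn (fun S => W0 ∪ S) (X.powerset : Set (Finset V)) := by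
    intro S hS S' hS' h
    simp only [Finset.coe_powerset, Set.mem_preimage, Set.mem_powerset_iff, Finset.coe_subset] at hS hS'
    have hdis : ∀ S'' : Finset V, S'' ⊆ X → Disjoint W0 S'' := by
      intro S'' h''
      rw [Finset.disjoint_left]
      intro a ha ha'
      have := h'' ha'
      rw [hX, Finset.mem_filter, mem_nb] at this
      exact hn0 a ha this.1
    have e1 : (W0 ∪ S) \ W0 = S := by
      rw [Finset.union_sdiff_left]; exact Finset.sdiff_eq_self_of_disjoint (hdis S hS).symm
    have e2 : (W0 ∪ S') \ W0 = S' := by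
      rw [Finset.union_sdiff_left]; exact Finset.sdiff_eq_self_of_disjoint (hdis S' hS').symm
    have h3 : W0 ∪ S = W0 ∪ S' := h
    rw [← e1, h3, e2]
  have hnot : insert v W0 ∉ X.powerset.image (fun S => W0 ∪ S) := by
    intro h
    obtain ⟨S, hS, hSe⟩ := Finset.mem_image.mp h
    have : v ∈ W0 ∪ S := by rw [hSe]; exact Finset.mem_insert_self _ _
    rcases Finset.mem_union.mp this with h1 | h1
    · exact hv0 h1
    · have := (Finset.mem_powerset.mp hS) h1
      rw [hX, Finset.mem_filter, mem_nb] at this
      exact G.loopless.irrefl v this.1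
  rw [hfib, Finset.card_insert_of_notMem hnot, Finset.card_image_of_injOn hinj,
    Finset.card_powerset, Finset.sum_insert hnot, Finset.sum_image hinj]
  have hS : ∀ S ∈ X.powerset, (d * (if v ∈ W0 ∪ S then (1 : ℝ) else 0) +
      ((nb G v ∩ (W0 ∪ S)).card : ℝ)) = (S.card : ℝ) := by
    intro S hS
    have hSX := Finset.mem_powerset.mp hS
    have hSn : ∀ x ∈ S, G.Adj v x := by
      intro x hx
      have := hSX hx
      rw [hX, Finset.mem_filter, mem_nb] at this
      exact this.1
    have hvn : v ∉ W0 ∪ S := by
      intro h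
      rcases Finset.mem_union.mp h with h1 | h1
      · exact hv0 h1
      · exact G.loopless.irrefl v (hSn v h1)
    have he : nb G v ∩ (W0 ∪ S) = S := by
      ext w
      simp only [Finset.mem_inter, mem_nb, Finset.mem_union]
      constructor
      · rintro ⟨h1, h2 | h2⟩
        · exact absurd h1 (hn0 w h2)
        · exact h2
      · intro hw
        exact ⟨hSn w hw, Or.inr hw⟩
    rw [if_neg hvn, he]; ring
  rw [Finset.sum_congr rfl hS, sum_powerset_card]
  have hve : (nb G v ∩ insert v W0).card = 0 := by
    rw [Finset.card_eq_zero]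
    ext w
    simp only [Finset.mem_inter, mem_nb, Finset.mem_insert, Finset.notMem_empty, iff_false, not_and,
      not_or]
    intro h1
    refine ⟨fun h => ?_, fun h => hn0 w h h1⟩
    rw [h] at h1
    exact G.loopless.irrefl v h1
  rw [hve, if_pos (Finset.mem_insert_self _ _)]
  have := real_ineq d hd X.card
  push_cast
  linarith

/-- Ajtai-Komlos-Szemeredi / Alon: a triangle-free graph with all degrees at most d has an
independent set of size at least N log d / (16 d). -/
theorem alon (G : SimpleGraph V) (htf : ∀ a b c, G.Adj a b → G.Adj b c → G.Adj a c → False)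
    (d : ℝ) (hd : 1 ≤ d) (hdeg : ∀ v, ((nb G v).card : ℝ) ≤ d) :
    ∃ W : Finset V, Ind G W ∧ (Fintype.card V : ℝ) * Real.log d / (16 * d) ≤ W.card := by
  classical
  by_contra hcon
  push Not at hcon
  have hne : (inds G).Nonempty := ⟨∅, by rw [mem_inds]; intro x hx; simp at hx⟩
  have hpos : (0 : ℝ) < (inds G).card := by exact_mod_cast hne.card_pos
  have h1 : ∑ v : V, (Real.log d / 8) * ((inds G).card : ℝ) ≤
      ∑ v : V, ∑ W ∈ inds G, (d * (if v ∈ W then 1 else 0) + ((nb G v ∩ W).card : ℝ)) :=
    Finset.sum_le_sum (fun v _ => one_vertex G htf d hd v)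
  rw [Finset.sum_const, Finset.card_univ, nsmul_eq_mul, Finset.sum_comm] at h1
  have h2 : ∀ W ∈ inds G, ∑ v : V, (d * (if v ∈ W then (1 : ℝ) else 0) + ((nb G v ∩ W).card : ℝ))
      ≤ 2 * d * W.card := by
    intro W _
    rw [Finset.sum_add_distrib, ← Finset.mul_sum]
    have e1 : ∑ v : V, (if v ∈ W then (1 : ℝ) else 0) = W.card := by
      rw [Finset.sum_ite_mem]; simp
    have e2 : ∑ v : V, ((nb G v ∩ W).card : ℝ) = ∑ w ∈ W, ((nb G w).card : ℝ) := by
      have : ∀ v : V, ((nb G v ∩ W).card : ℝ) = ∑ w ∈ W, (if G.Adj v w then (1 : ℝ) else 0) := by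
        intro v
        rw [← Finset.sum_filter, Finset.sum_const, nsmul_eq_mul, mul_one]
        congr 2
        ext w; simp [mem_nb, and_comm]
      simp_rw [this]
      rw [Finset.sum_comm]
      apply Finset.sum_congr rfl
      intro w _
      rw [← Finset.sum_filter, Finset.sum_const, nsmul_eq_mul, mul_one]
      congr 2
      ext v; simp [mem_nb, SimpleGraph.adj_comm]
    rw [e1, e2]
    have : ∑ w ∈ W, ((nb G w).card : ℝ) ≤ ∑ w ∈ W, d := Finset.sum_le_sum (fun w _ => hdeg w)
    rw [Finset.sum_const, nsmul_eq_mul] at this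
    linarith
  have h3 := h1.trans (Finset.sum_le_sum h2)
  have h4 : ∀ W ∈ inds G, 2 * d * (W.card : ℝ) <
      2 * d * ((Fintype.card V : ℝ) * Real.log d / (16 * d)) := by
    intro W hW
    have := hcon W ((mem_inds G W).mp hW)
    have hd0 : 0 < 2 * d := by linarith
    exact mul_lt_mul_of_pos_left this hd0
  have h5 := Finset.sum_lt_sum_of_nonempty hne h4
  rw [Finset.sum_const, nsmul_eq_mul] at h5
  have hd0 : 0 < d := by linarith
  have e : 2 * d * ((Fintype.card V : ℝ) * Real.log d / (16 * d)) =
      (Fintype.card V : ℝ) * (Real.log d / 8) := by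
    field_simp; ring
  rw [e] at h5
  have : (Fintype.card V : ℝ) * (Real.log d / 8 * ((inds G).card : ℝ)) =
    ((inds G).card : ℝ) * ((Fintype.card V : ℝ) * (Real.log d / 8)) := by ring
  linarith

end Pool.Agent.H51.K4S
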