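import Pool.Agent.H51.K4S.Sub

/-!
# H51.K4S.Core: N^2 <= C n^5 / (log n)^5
-/

namespace Pool.Agent.H51.K4S

open Finset

variable {V : Type*} [Fintype V] [DecidableEq V]

/-- (L1) every large neighbourhood has many edges -/
lemma large_nb (G : SimpleGraph V) (hF : Free G) (L : ℝ) (hL : 1 ≤ L)
    (hu : 32768 ≤ Real.exp (L / 8))
    (hα : ∀ W : Finset V, Ind G W → (W.card : ℝ) < Real.exp L) (v : V)
    (hv : Real.exp (L / 8) ^ 10 ≤ (nb G v).card) :
    ((nb G v).card : ℝ) ^ 2 * L / (32768 * Real.exp L) ≤ (P2 G (nb G v)).card := by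
  set u : ℝ := Real.exp (L / 8) with hu0
  have hupos : 0 < u := Real.exp_pos _
  have hn : Real.exp L = u ^ 8 := by
    rw [hu0, ← Real.exp_nat_mul]; congr 1; push_cast; ring
  have hlogu : Real.log u = L / 8 := Real.log_exp _
  set d : ℝ := ((nb G v).card : ℝ) with hd
  have hd0 : 0 < d := lt_of_lt_of_le (by positivity) hv
  set D : ℝ := d / Real.exp L * L / 32768 with hD
  have hexp : 0 < Real.exp L := Real.exp_pos L
  have hDu : u ≤ D := by
    rw [hD, le_div_iff₀ (by norm_num)]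
    have h1 : u ^ 2 ≤ d / Real.exp L := by
      rw [le_div_iff₀ hexp, hn]
      calc u ^ 2 * u ^ 8 = u ^ 10 := by ring
        _ ≤ d := hv
    have h2 : u ^ 2 * 1 ≤ d / Real.exp L * L := mul_le_mul h1 hL (by norm_num) (by positivity)
    nlinarith
  have hD1 : 1 ≤ D := by linarith
  by_contra hcon
  rw [not_le] at hcon
  have hP : ((P2 G (nb G v)).card : ℝ) ≤ D * (nb G v).card := by
    refine hcon.le.trans (le_of_eq ?_)
    rw [hD, ← hd]; field_simp
  have hP3 : ((P3 G (nb G v)).card : ℝ) ≤ D * (nb G v).card := by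
    have := tri_le G hF v
    have h' : ((P3 G (nb G v)).card : ℝ) ≤ (P2 G (nb G v)).card := by exact_mod_cast this
    exact h'.trans hP
  obtain ⟨W, hW, hWc⟩ := appl_one G (nb G v) D hD1 hP hP3
  have hlt := hα W hW
  have hlogD : L / 8 ≤ Real.log D := by rw [← hlogu]; exact Real.log_le_log hupos hDu
  have hD0 : 0 < D := by linarith
  have h3 : Real.exp L ≤ d * Real.log D / (4096 * D) := by
    rw [le_div_iff₀ (by positivity)]
    have e : Real.exp L * (4096 * D) = d * (L / 8) := by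
      rw [hD]; field_simp; ring
    rw [e]
    exact mul_le_mul_of_nonneg_left hlogD hd0.le
  linarith

/-- (L2) the number of edges is large -/
lemma many_edges (G : SimpleGraph V) (hF : Free G) (L : ℝ) (hL : 1 ≤ L)
    (hα : ∀ W : Finset V, Ind G W → (W.card : ℝ) < Real.exp L)
    (hN : 2 * 262144 * Real.exp (L / 8) ^ 18 ≤ Fintype.card V) :
    (Fintype.card V : ℝ) ^ 2 * L / (262144 * Real.exp L) ≤ (P2 G univ).card := by
  classical
  set u : ℝ := Real.exp (L / 8) with hu0
  have hupos : 0 < u := Real.exp_pos _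
  have hu1 : 1 ≤ u := Real.one_le_exp (by linarith)
  have hn : Real.exp L = u ^ 8 := by
    rw [hu0, ← Real.exp_nat_mul]; congr 1; push_cast; ring
  have hlogu : Real.log u = L / 8 := Real.log_exp _
  set N : ℝ := (Fintype.card V : ℝ) with hNd
  have hNpos : 0 < N := lt_of_lt_of_le (by positivity) hN
  have hexp : 0 < Real.exp L := Real.exp_pos L
  by_contra hcon
  rw [not_le] at hcon
  set D : ℝ := N * L / (262144 * Real.exp L) with hD
  have hDpos : 0 < D := by positivity
  have hDu : u ≤ 2 * D := by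
    have h1 : 2 * u ^ 10 ≤ D := by
      rw [hD, le_div_iff₀ (by positivity), hn]
      calc 2 * u ^ 10 * (262144 * u ^ 8) = (2 * 262144 * u ^ 18) * 1 := by ring
        _ ≤ N * L := mul_le_mul hN hL (by norm_num) hNpos.le
    have h2 : u ≤ u ^ 10 := le_self_pow₀ hu1 (by norm_num)
    nlinarith [pow_pos hupos 10]
  have hcard : ((univ : Finset V).card : ℝ) = N := by rw [Finset.card_univ]
  have hP2 : ((P2 G univ).card : ℝ) ≤ D * (univ : Finset V).card := by
    rw [hcard]
    refine hcon.le.trans (le_of_eq ?_)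
    rw [hD]; field_simp
  have hhalf := half_low G univ D hDpos hP2
  set V' : Finset V := univ.filter (fun v => ((nb G v ∩ univ).card : ℝ) ≤ 2 * D) with hV'
  have hV'd : ∀ v ∈ V', ((nb G v).card : ℝ) ≤ 2 * D := by
    intro v hv
    have := (Finset.mem_filter.mp hv).2
    rwa [Finset.inter_univ] at this
  set r : ℝ := Real.sqrt (Real.sqrt (2 * D)) with hr
  have hr4 : r ^ 4 = 2 * D := by
    have h1 : r ^ 2 = Real.sqrt (2 * D) := Real.sq_sqrt (Real.sqrt_nonneg _)
    have h2 : (Real.sqrt (2 * D)) ^ 2 = 2 * D := Real.sq_sqrt (by positivity)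
    calc r ^ 4 = (r ^ 2) ^ 2 := by ring
      _ = 2 * D := by rw [h1, h2]
  have h2D1 : 1 ≤ 2 * D := hu1.trans hDu
  have hr1 : 1 ≤ r := by
    rw [hr, Real.one_le_sqrt, Real.one_le_sqrt]; exact h2D1
  have hrpos : 0 < r := by linarith
  have hP2' : ((P2 G V').card : ℝ) ≤ r ^ 4 * V'.card := by
    rw [P2_eq_sum]
    push_cast
    calc ∑ v ∈ V', ((nb G v ∩ V').card : ℝ) ≤ ∑ v ∈ V', (r ^ 4) := by
          apply Finset.sum_le_sum
          intro v hv
          have h1 : (nb G v ∩ V').card ≤ (nb G v).card := Finset.card_le_card Finset.inter_subset_left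
          have h2 : ((nb G v ∩ V').card : ℝ) ≤ (nb G v).card := by exact_mod_cast h1
          rw [hr4]
          exact h2.trans (hV'd v hv)
      _ = r ^ 4 * V'.card := by rw [Finset.sum_const, nsmul_eq_mul]; ring
  have hP3' : ((P3 G V').card : ℝ) ≤ 2 * r ^ 6 * V'.card := by
    have h1 : ((P3 G V').card : ℝ) ≤ ∑ v ∈ V', ((P2 G (nb G v)).card : ℝ) := by
      exact_mod_cast P3_le_sum G V'
    refine h1.trans ?_
    calc ∑ v ∈ V', ((P2 G (nb G v)).card : ℝ) ≤ ∑ v ∈ V', (2 * r ^ 6) := by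
          apply Finset.sum_le_sum
          intro v hv
          have h2 := P2_nb_le G hF v
          have h3 : ((nb G v).card : ℝ) ^ 3 ≤ (r ^ 4) ^ 3 :=
            pow_le_pow_left₀ (by positivity) (by rw [hr4]; exact hV'd v hv) 3
          have h4 : ((P2 G (nb G v)).card : ℝ) ^ 2 ≤ (2 * r ^ 6) ^ 2 := by
            have : (0 : ℝ) ≤ r ^ 12 := by positivity
            calc ((P2 G (nb G v)).card : ℝ) ^ 2 ≤ 3 * ((nb G v).card : ℝ) ^ 3 := h2
              _ ≤ 3 * (r ^ 4) ^ 3 := by linarith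
              _ ≤ (2 * r ^ 6) ^ 2 := by nlinarith
          exact le_of_sq_le_sq h4 (by positivity)
      _ = 2 * r ^ 6 * V'.card := by rw [Finset.sum_const, nsmul_eq_mul]; ring
  obtain ⟨W, hW, hWc⟩ := appl_two G V' r hr1 hP2' hP3'
  have hlt := hα W hW
  have hlogr : L / 32 ≤ Real.log r := by
    have h1 : Real.log (r ^ 4) = 4 * Real.log r := by rw [Real.log_pow]; push_cast; ring
    have h2 : L / 8 ≤ Real.log (r ^ 4) := by
      rw [← hlogu, hr4]; exact Real.log_le_log hupos hDu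
    linarith
  have hV'c : N / 2 ≤ V'.card := by rw [← hcard]; exact hhalf
  have h3 : Real.exp L ≤ (V'.card : ℝ) * Real.log r / (2048 * r ^ 4) := by
    rw [le_div_iff₀ (by positivity), hr4]
    calc Real.exp L * (2048 * (2 * D)) = (N / 2) * (L / 32) := by
          rw [hD]; field_simp; ring
      _ ≤ (V'.card : ℝ) * Real.log r := mul_le_mul hV'c hlogr (by positivity) (by positivity)
  linarith

/-- tangent line inequality for cubes -/
lemma cube_sum (B : Finset V) (f : V → ℝ) (hf : ∀ v ∈ B, 0 ≤ f v) (N : ℝ) (hN : 0 < N)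
    (hBN : (B.card : ℝ) ≤ N) : (∑ v ∈ B, f v) ^ 3 ≤ N ^ 2 * ∑ v ∈ B, f v ^ 3 := by
  set S : ℝ := ∑ v ∈ B, f v with hS
  have hS0 : 0 ≤ S := Finset.sum_nonneg hf
  set t : ℝ := S / N with ht
  have ht0 : 0 ≤ t := by positivity
  have h1 : ∀ v ∈ B, 3 * t ^ 2 * f v - 2 * t ^ 3 ≤ f v ^ 3 := by
    intro v hv
    have h := hf v hv
    nlinarith [mul_nonneg (sq_nonneg (f v - t)) (by linarith : 0 ≤ f v + 2 * t)]
  have h2 := Finset.sum_le_sum h1
  rw [Finset.sum_sub_distrib, ← Finset.mul_sum, Finset.sum_const, nsmul_eq_mul, ← hS] at h2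
  have h3 : (B.card : ℝ) * (2 * t ^ 3) ≤ N * (2 * t ^ 3) :=
    mul_le_mul_of_nonneg_right hBN (by positivity)
  have hSt : S = t * N := by rw [ht]; field_simp
  have h4 : t ^ 3 * N ≤ ∑ v ∈ B, f v ^ 3 := by
    have : 3 * t ^ 2 * S = 3 * t ^ 3 * N := by rw [hSt]; ring
    nlinarith
  calc S ^ 3 = N ^ 2 * (t ^ 3 * N) := by rw [hSt]; ring
    _ ≤ N ^ 2 * ∑ v ∈ B, f v ^ 3 := mul_le_mul_of_nonneg_left h4 (by positivity)

/-- the constant -/
def C0 : ℝ := 40 * 32768 ^ 2 * 262144 ^ 3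

theorem core (G : SimpleGraph V) (hF : Free G) (L : ℝ) (hL : 1 ≤ L)
    (hu : 32768 ≤ Real.exp (L / 8))
    (hα : ∀ W : Finset V, Ind G W → (W.card : ℝ) < Real.exp L) :
    (Fintype.card V : ℝ) ^ 2 ≤ C0 * Real.exp L ^ 5 / L ^ 5 := by
  classical
  set u : ℝ := Real.exp (L / 8) with hu0
  have hupos : 0 < u := Real.exp_pos _
  have hu1 : 1 ≤ u := Real.one_le_exp (by linarith)
  have hn : Real.exp L = u ^ 8 := by
    rw [hu0, ← Real.exp_nat_mul]; congr 1; push_cast; ring
  set N : ℝ := (Fintype.card V : ℝ) with hNd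
  have hN0 : 0 ≤ N := by positivity
  have hL0 : 0 < L := by linarith
  have hexp : 0 < Real.exp L := Real.exp_pos L
  rcases lt_or_ge N (2 * 262144 * u ^ 18) with hsmall | hN
  · -- small N
    have h1 : (L / 2) ^ 5 / (Nat.factorial 5 : ℝ) ≤ Real.exp (L / 2) :=
      Real.pow_div_factorial_le_exp (L / 2) (by positivity) 5
    have h2 : Real.exp (L / 2) = u ^ 4 := by
      rw [hu0, ← Real.exp_nat_mul]; congr 1; push_cast; ring
    rw [h2] at h1
    have h3 : L ^ 5 ≤ 3840 * u ^ 4 := by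
      have : (Nat.factorial 5 : ℝ) = 120 := by norm_num [Nat.factorial]
      rw [this, div_le_iff₀ (by norm_num)] at h1
      have e : (L / 2) ^ 5 = L ^ 5 / 32 := by ring
      rw [e] at h1
      linarith
    rw [le_div_iff₀ (by positivity), hn]
    have h4 : N ^ 2 ≤ (2 * 262144 * u ^ 18) ^ 2 := pow_le_pow_left₀ hN0 hsmall.le 2
    calc N ^ 2 * L ^ 5 ≤ (2 * 262144 * u ^ 18) ^ 2 * (3840 * u ^ 4) :=
          mul_le_mul h4 h3 (by positivity) (by positivity)
      _ = (4 * 262144 ^ 2 * 3840) * u ^ 40 := by ring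
      _ ≤ C0 * u ^ 40 := by
          apply mul_le_mul_of_nonneg_right _ (by positivity)
          unfold C0; norm_num
      _ = C0 * (u ^ 8) ^ 5 := by ring
  · have hNpos : 0 < N := lt_of_lt_of_le (by positivity) hN
    have hE := many_edges G hF L hL hα hN
    rw [← hNd] at hE
    set S2 : ℝ := ((P2 G univ).card : ℝ) with hS2
    have hS2s : S2 = ∑ v : V, ((nb G v).card : ℝ) := by
      rw [hS2, P2_eq_sum]
      push_cast
      apply Finset.sum_congr rfl
      intro v _
      rw [Finset.inter_univ]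
    set B : Finset V := univ.filter (fun v => u ^ 10 ≤ ((nb G v).card : ℝ)) with hB
    set S : ℝ := ∑ v ∈ B, ((nb G v).card : ℝ) with hS
    have hSmall : ∑ v ∈ univ.filter (fun v => ¬ u ^ 10 ≤ ((nb G v).card : ℝ)),
        ((nb G v).card : ℝ) ≤ N * u ^ 10 := by
      calc ∑ v ∈ univ.filter (fun v => ¬ u ^ 10 ≤ ((nb G v).card : ℝ)), ((nb G v).card : ℝ)
          ≤ ∑ v ∈ univ.filter (fun v => ¬ u ^ 10 ≤ ((nb G v).card : ℝ)), u ^ 10 := by
            apply Finset.sum_le_sum
            intro v hv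
            exact (not_le.mp (Finset.mem_filter.mp hv).2).le
        _ ≤ ∑ v : V, u ^ 10 := Finset.sum_le_sum_of_subset_of_nonneg (Finset.filter_subset _ _)
            (fun v _ _ => by positivity)
        _ = N * u ^ 10 := by rw [Finset.sum_const, Finset.card_univ, nsmul_eq_mul]
    have hsplit : S + ∑ v ∈ univ.filter (fun v => ¬ u ^ 10 ≤ ((nb G v).card : ℝ)),
        ((nb G v).card : ℝ) = S2 := by
      rw [hS2s, hS, hB]
      exact Finset.sum_filter_add_sum_filter_not _ _ _
    have hS2big : 2 * (N * u ^ 10) ≤ S2 := by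
      refine le_trans ?_ hE
      rw [le_div_iff₀ (by positivity), hn]
      calc 2 * (N * u ^ 10) * (262144 * u ^ 8) = N * ((2 * 262144 * u ^ 18) * 1) := by ring
        _ ≤ N * (N * L) := by
            apply mul_le_mul_of_nonneg_left _ hN0
            exact mul_le_mul hN hL (by norm_num) hN0
        _ = N ^ 2 * L := by ring
    have hShalf : S2 / 2 ≤ S := by linarith
    -- upper bound for the cubes
    have hv1 : ∀ v ∈ B, ((nb G v).card : ℝ) ^ 3 * (L ^ 2 / (32768 * Real.exp L) ^ 2) ≤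
        2 * ∑ c ∈ nb G v, (((nb G v ∩ nb G c).offDiag.card : ℕ) : ℝ) + (nb G v).card := by
      intro v hv
      have hvb := (Finset.mem_filter.mp hv).2
      have h1 := large_nb G hF L hL hu hα v hvb
      have h2 := local_lower G v
      set d : ℝ := ((nb G v).card : ℝ) with hd
      have hd0 : 0 < d := lt_of_lt_of_le (by positivity) hvb
      have h3 : (d ^ 2 * L / (32768 * Real.exp L)) ^ 2 ≤ ((P2 G (nb G v)).card : ℝ) ^ 2 :=
        pow_le_pow_left₀ (by positivity) h1 2
      have h4 := h3.trans h2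
      have h5 : d * (d ^ 3 * (L ^ 2 / (32768 * Real.exp L) ^ 2)) ≤
          d * (2 * ∑ c ∈ nb G v, (((nb G v ∩ nb G c).offDiag.card : ℕ) : ℝ) + d) := by
        refine le_trans (le_of_eq ?_) h4
        field_simp
      exact le_of_mul_le_mul_left h5 hd0
    have hsum := Finset.sum_le_sum hv1
    rw [← Finset.sum_mul, Finset.sum_add_distrib, ← Finset.mul_sum] at hsum
    have hO : ∑ v ∈ B, ∑ c ∈ nb G v, (((nb G v ∩ nb G c).offDiag.card : ℕ) : ℝ) ≤ 2 * (N * N) := by
      have h1 : ∑ v ∈ B, ∑ c ∈ nb G v, (((nb G v ∩ nb G c).offDiag.card : ℕ) : ℝ) ≤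
          ∑ v : V, ∑ c ∈ nb G v, (((nb G v ∩ nb G c).offDiag.card : ℕ) : ℝ) := by
        apply Finset.sum_le_sum_of_subset_of_nonneg (Finset.filter_subset _ _)
        intro v _ _
        exact Finset.sum_nonneg (fun c _ => by positivity)
      have h2 : ∑ v : V, ∑ c ∈ nb G v, (((nb G v ∩ nb G c).offDiag.card : ℕ) : ℝ) ≤ 2 * (N * N) := by
        rw [hNd]
        exact_mod_cast cherry_global G hF
      exact h1.trans h2
    have hSN : S ≤ N * N := by
      have h1 : S ≤ ∑ v ∈ B, N := by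
        apply Finset.sum_le_sum
        intro v _
        have : (nb G v).card ≤ Fintype.card V := Finset.card_le_univ _
        rw [hNd]
        exact_mod_cast this
      have h2 : ∑ v ∈ B, N ≤ ∑ v : V, N :=
        Finset.sum_le_sum_of_subset_of_nonneg (Finset.filter_subset _ _) (fun v _ _ => hN0)
      rw [Finset.sum_const (s := (univ : Finset V)), Finset.card_univ, nsmul_eq_mul] at h2
      exact h1.trans h2
    have hBc : (B.card : ℝ) ≤ N := by
      have : B.card ≤ Fintype.card V := Finset.card_le_univ _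
      rw [hNd]
      exact_mod_cast this
    have hcube := cube_sum B (fun v => ((nb G v).card : ℝ)) (fun v _ => by positivity) N hNpos hBc
    rw [← hS] at hcube hsum
    set Q : ℝ := ∑ v ∈ B, ((nb G v).card : ℝ) ^ 3 with hQ
    have hQ5 : Q * (L ^ 2 / (32768 * Real.exp L) ^ 2) ≤ 5 * N ^ 2 := by
      calc Q * (L ^ 2 / (32768 * Real.exp L) ^ 2) ≤ _ := hsum
        _ ≤ 2 * (2 * (N * N)) + N * N := by linarith
        _ = 5 * N ^ 2 := by ring
    have hSlow : N ^ 2 * L / (262144 * Real.exp L) / 2 ≤ S := by linarith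
    have h6 : (N ^ 2 * L / (262144 * Real.exp L) / 2) ^ 3 ≤ S ^ 3 :=
      pow_le_pow_left₀ (by positivity) hSlow 3
    have h7 : (N ^ 2 * L / (262144 * Real.exp L) / 2) ^ 3 ≤ N ^ 2 * Q := h6.trans hcube
    have h8 : (N ^ 2 * L / (262144 * Real.exp L) / 2) ^ 3 * (L ^ 2 / (32768 * Real.exp L) ^ 2) ≤
        N ^ 2 * (5 * N ^ 2) := by
      calc _ ≤ (N ^ 2 * Q) * (L ^ 2 / (32768 * Real.exp L) ^ 2) :=
            mul_le_mul_of_nonneg_right h7 (by positivity)
        _ = N ^ 2 * (Q * (L ^ 2 / (32768 * Real.exp L) ^ 2)) := by ring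
        _ ≤ N ^ 2 * (5 * N ^ 2) := mul_le_mul_of_nonneg_left hQ5 (by positivity)
    have h9 : (N ^ 2 * L / (262144 * Real.exp L) / 2) ^ 3 * (L ^ 2 / (32768 * Real.exp L) ^ 2) =
        N ^ 4 * (5 * (N ^ 2 * L ^ 5 / (C0 * Real.exp L ^ 5))) := by
      unfold C0
      field_simp
      ring
    rw [h9] at h8
    have h10 : N ^ 4 * (5 * (N ^ 2 * L ^ 5 / (C0 * Real.exp L ^ 5))) ≤ N ^ 4 * 5 := by
      refine h8.trans (le_of_eq ?_); ring
    have h11 : 5 * (N ^ 2 * L ^ 5 / (C0 * Real.exp L ^ 5)) ≤ 5 :=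
      le_of_mul_le_mul_left h10 (by positivity)
    have hC0 : (0 : ℝ) < C0 := by unfold C0; norm_num
    have h12 : N ^ 2 * L ^ 5 / (C0 * Real.exp L ^ 5) ≤ 1 := by linarith
    rw [div_le_one (by positivity)] at h12
    rw [le_div_iff₀ (by positivity)]
    exact h12

end Pool.Agent.H51.K4S
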