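import Pool.Agent.H51.K4S.Samp

/-!
# H51.K4S.Count: graphs without K_4 with one edge subdivided: local and global counts
-/

namespace Pool.Agent.H51.K4S

open Finset

variable {V : Type*} [Fintype V] [DecidableEq V]

/-- no copy of K_4 with one edge subdivided once (a, b, c, d and e on the subdivided edge ab) -/
def Free (G : SimpleGraph V) : Prop := ∀ a b c d e : V, a ≠ b → e ≠ c → e ≠ d →
  G.Adj a c → G.Adj a d → G.Adj b c → G.Adj b d → G.Adj c d → G.Adj a e → G.Adj b e → False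

lemma tri_le (G : SimpleGraph V) (hF : Free G) (v : V) :
    (P3 G (nb G v)).card ≤ (P2 G (nb G v)).card := by
  classical
  apply Finset.card_le_card_of_injOn (fun p => (p.1, p.2.1))
  · rintro ⟨a, b, c⟩ hp
    have hp' := (mem_P3 G _ _).mp (Finset.mem_coe.mp hp)
    exact Finset.mem_coe.mpr ((mem_P2 G _ _).mpr ⟨hp'.1, hp'.2.1, hp'.2.2.2.1⟩)
  · rintro ⟨a, b, c⟩ hp ⟨a', b', c'⟩ hp' h
    obtain ⟨ha, hb, hc, hab, hbc, hac⟩ := (mem_P3 G _ _).mp (Finset.mem_coe.mp hp)
    obtain ⟨ha', hb', hc', hab', hbc', hac'⟩ := (mem_P3 G _ _).mp (Finset.mem_coe.mp hp')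
    simp only [Prod.mk.injEq] at h
    obtain ⟨rfl, rfl⟩ := h
    simp only [mem_nb] at ha hb hc hc'
    by_cases hcc : c = c'
    · subst hcc; rfl
    · exact (hF c c' a b v hcc ha.ne hb.ne hac.symm hbc.symm hac'.symm hbc'.symm hab hc.symm
        hc'.symm).elim

lemma cherry_local (G : SimpleGraph V) (hF : Free G) (v : V) :
    ∑ c ∈ nb G v, ((nb G v ∩ nb G c).offDiag.card) ≤ (nb G v).card * (nb G v).card := by
  classical
  have h1 : ∀ c ∈ nb G v, (nb G v ∩ nb G c).offDiag.card =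
      ∑ q ∈ nb G v ×ˢ nb G v, (if q ∈ (nb G v ∩ nb G c).offDiag then 1 else 0) := by
    intro c _
    rw [← Finset.sum_filter, Finset.sum_const, smul_eq_mul, mul_one]
    congr 1
    ext ⟨a, b⟩
    simp only [Finset.mem_offDiag, Finset.mem_inter, Finset.mem_filter, Finset.mem_product]
    tauto
  rw [Finset.sum_congr rfl h1, Finset.sum_comm, ← Finset.card_product]
  have h2 : ∀ q ∈ nb G v ×ˢ nb G v,
      ∑ c ∈ nb G v, (if q ∈ (nb G v ∩ nb G c).offDiag then 1 else 0) ≤ 1 := by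
    rintro ⟨a, b⟩ _
    rw [← Finset.sum_filter, Finset.sum_const, smul_eq_mul, mul_one, Finset.card_le_one]
    intro c hc c' hc'
    simp only [Finset.mem_filter, Finset.mem_offDiag, Finset.mem_inter, mem_nb] at hc hc'
    by_contra hcc
    obtain ⟨hvc, ⟨hva, hca⟩, ⟨hvb, hcb⟩, hab⟩ := hc
    obtain ⟨hvc', ⟨_, hca'⟩, ⟨_, hcb'⟩, _⟩ := hc'
    exact hF a b v c c' hab hvc'.ne' (fun h => hcc h.symm) hva.symm hca.symm hvb.symm hcb.symm
      hvc hca'.symm hcb'.symm
  calc ∑ q ∈ nb G v ×ˢ nb G v, ∑ c ∈ nb G v, (if q ∈ (nb G v ∩ nb G c).offDiag then 1 else 0)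
      ≤ ∑ q ∈ nb G v ×ˢ nb G v, 1 := Finset.sum_le_sum h2
    _ = (nb G v ×ˢ nb G v).card := by simp

lemma cherry_global (G : SimpleGraph V) (hF : Free G) :
    ∑ v : V, ∑ c ∈ nb G v, ((nb G v ∩ nb G c).offDiag.card) ≤
      2 * (Fintype.card V * Fintype.card V) := by
  classical
  have h0 : ∑ v : V, ∑ c ∈ nb G v, ((nb G v ∩ nb G c).offDiag.card) =
      ∑ p ∈ P2 G univ, ((nb G p.1 ∩ nb G p.2).offDiag.card) := by
    rw [← Finset.sum_finset_product' (P2 G univ) univ (fun v => nb G v)]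
    intro p
    simp [mem_P2, mem_nb]
  rw [h0]
  have h1 : ∀ p ∈ P2 G univ, (nb G p.1 ∩ nb G p.2).offDiag.card =
      ∑ q : V × V, (if q ∈ (nb G p.1 ∩ nb G p.2).offDiag then 1 else 0) := by
    intro p _
    rw [← Finset.sum_filter, Finset.sum_const, smul_eq_mul, mul_one]
    congr 1
    ext q; simp
  rw [Finset.sum_congr rfl h1, Finset.sum_comm]
  have h2 : ∀ q : V × V,
      ∑ p ∈ P2 G univ, (if q ∈ (nb G p.1 ∩ nb G p.2).offDiag then 1 else 0) ≤ 2 := by
    rintro ⟨a, b⟩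
    rw [← Finset.sum_filter, Finset.sum_const, smul_eq_mul, mul_one]
    rcases Finset.eq_empty_or_nonempty
      ((P2 G univ).filter (fun p => (a, b) ∈ (nb G p.1 ∩ nb G p.2).offDiag)) with he | ⟨⟨v, c⟩, hvc⟩
    · rw [he]; simp
    · have hsub : (P2 G univ).filter (fun p => (a, b) ∈ (nb G p.1 ∩ nb G p.2).offDiag) ⊆
          {(v, c), (c, v)} := by
        rintro ⟨v', c'⟩ hp
        simp only [Finset.mem_filter, mem_P2, Finset.mem_univ, true_and, Finset.mem_offDiag,
          Finset.mem_inter, mem_nb] at hvc hp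
        obtain ⟨hadj, ⟨hva, hca⟩, ⟨hvb, hcb⟩, hab⟩ := hvc
        obtain ⟨hadj', ⟨hva', hca'⟩, ⟨hvb', hcb'⟩, _⟩ := hp
        have key : ∀ e, G.Adj e a → G.Adj e b → e = v ∨ e = c := by
          intro e hea heb
          by_contra hcon
          push Not at hcon
          exact hF a b v c e hab hcon.1 hcon.2 hva.symm hca.symm hvb.symm hcb.symm hadj
            hea.symm heb.symm
        rcases key v' hva' hvb' with h | h <;> rcases key c' hca' hcb' with h' | h'
        · subst h; subst h'; exact (G.loopless.irrefl _ hadj').elim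
        · subst h; subst h'; simp
        · subst h; subst h'; simp
        · subst h; subst h'; exact (G.loopless.irrefl _ hadj').elim
      calc _ ≤ ({(v, c), (c, v)} : Finset (V × V)).card := Finset.card_le_card hsub
        _ ≤ 2 := Finset.card_le_two
  calc ∑ q : V × V, ∑ p ∈ P2 G univ, (if q ∈ (nb G p.1 ∩ nb G p.2).offDiag then 1 else 0)
      ≤ ∑ q : V × V, 2 := Finset.sum_le_sum (fun q _ => h2 q)
    _ = 2 * (Fintype.card V * Fintype.card V) := by
      rw [Finset.sum_const, Finset.card_univ, Fintype.card_prod, smul_eq_mul]; ring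

lemma offDiag_real (s : Finset V) : ((s.offDiag.card : ℕ) : ℝ) = (s.card : ℝ) ^ 2 - s.card := by
  rw [Finset.offDiag_card, Nat.cast_sub (Nat.le_mul_self _)]
  push_cast; ring

lemma P2_nb (G : SimpleGraph V) (v : V) :
    ((P2 G (nb G v)).card : ℝ) = ∑ c ∈ nb G v, ((nb G v ∩ nb G c).card : ℝ) := by
  rw [P2_eq_sum]
  push_cast
  apply Finset.sum_congr rfl
  intro c _
  rw [Finset.inter_comm]

/-- Cauchy-Schwarz at v -/
lemma cauchy_v (G : SimpleGraph V) (v : V) :
    ((P2 G (nb G v)).card : ℝ) ^ 2 ≤ (nb G v).card *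
      ∑ c ∈ nb G v, ((nb G v ∩ nb G c).card : ℝ) ^ 2 := by
  rw [P2_nb]
  exact sq_sum_le_card_mul_sum_sq

/-- the local lower bound: sum of t(t-1) >= P2^2/(2 d) - d/2 -/
lemma local_lower (G : SimpleGraph V) (v : V) :
    ((P2 G (nb G v)).card : ℝ) ^ 2 ≤ (nb G v).card *
      (2 * ∑ c ∈ nb G v, (((nb G v ∩ nb G c).offDiag.card : ℕ) : ℝ) + (nb G v).card) := by
  refine (cauchy_v G v).trans ?_
  apply mul_le_mul_of_nonneg_left _ (by positivity)
  rw [Finset.mul_sum]
  have e : ((nb G v).card : ℝ) = ∑ c ∈ nb G v, (1 : ℝ) := by simp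
  rw [e, ← Finset.sum_add_distrib]
  apply Finset.sum_le_sum
  intro c _
  rw [offDiag_real]
  set t : ℝ := ((nb G v ∩ nb G c).card : ℝ)
  nlinarith [sq_nonneg (t - 1)]

/-- C_4-freeness: P2(H_v)^2 <= 3 d^3 -/
lemma P2_nb_le (G : SimpleGraph V) (hF : Free G) (v : V) :
    ((P2 G (nb G v)).card : ℝ) ^ 2 ≤ 3 * ((nb G v).card : ℝ) ^ 3 := by
  have h := local_lower G v
  have h1 : ∑ c ∈ nb G v, (((nb G v ∩ nb G c).offDiag.card : ℕ) : ℝ) ≤
      ((nb G v).card : ℝ) * (nb G v).card := by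
    exact_mod_cast cherry_local G hF v
  set d : ℝ := ((nb G v).card : ℝ) with hd
  have hd0 : 0 ≤ d := by positivity
  have hdn : d ≤ d ^ 2 := by
    rw [hd]
    have : (nb G v).card ≤ (nb G v).card ^ 2 := Nat.le_self_pow (by norm_num) _
    exact_mod_cast this
  calc ((P2 G (nb G v)).card : ℝ) ^ 2 ≤ d * (2 * (d * d) + d ^ 2) := by
        refine h.trans ?_
        apply mul_le_mul_of_nonneg_left _ hd0
        linarith
    _ = 3 * d ^ 3 := by ring

end Pool.Agent.H51.K4S
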