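import Pool.Agent.H51.K4S.Core

/-!
# H51.K4S.Fin: the Ramsey number of K_4 with one subdivided edge against K_n
-/

namespace Pool.Agent.H51.K4S

open Finset SimpleGraph

/-- `K_4` with one edge subdivided once: a = 0, b = 1, c = 2, d = 3, e = 4. -/
def K4star : SimpleGraph (Fin 5) :=
  SimpleGraph.fromEdgeSet {s(0, 2), s(0, 3), s(1, 2), s(1, 3), s(2, 3), s(0, 4), s(4, 1)}

/-- `N` is the Ramsey number `R(H, F)`. -/
def IsRamseyNumber {α β : Type} (H : SimpleGraph α) (F : SimpleGraph β) (N : ℕ) : Prop :=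
  IsLeast {M : ℕ | ∀ G : SimpleGraph (Fin M), H ⊑ G ∨ F ⊑ Gᶜ} N

lemma contains_of_not_free {V : Type} (G : SimpleGraph V)
    (h : ¬ Free G) : K4star ⊑ G := by
  unfold Free at h
  push Not at h
  obtain ⟨a, b, c, d, e, hab, hec, hed, h1, h2, h3, h4, h5, h6, h7, _⟩ := h
  refine ⟨⟨⟨![a, b, c, d, e], ?_⟩, ?_⟩⟩
  · intro x y hxy
    rw [K4star, SimpleGraph.fromEdgeSet_adj] at hxy
    obtain ⟨hxy, _⟩ := hxy
    simp only [Set.mem_insert_iff, Set.mem_singleton_iff, Sym2.eq_iff] at hxy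
    rcases hxy with h | h | h | h | h | h | h <;> rcases h with ⟨rfl, rfl⟩ | ⟨rfl, rfl⟩
    · exact h1
    · exact h1.symm
    · exact h2
    · exact h2.symm
    · exact h3
    · exact h3.symm
    · exact h4
    · exact h4.symm
    · exact h5
    · exact h5.symm
    · exact h6
    · exact h6.symm
    · exact h7.symm
    · exact h7
  · have n1 := h1.ne
    have n2 := h2.ne
    have n3 := h3.ne
    have n4 := h4.ne
    have n5 := h5.ne
    have n6 := h6.ne
    have n7 := h7.ne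
    intro x y hxy
    fin_cases x <;> fin_cases y <;>
      first
      | rfl
      | (exfalso; simp at hxy; first
          | exact hab hxy | exact hab hxy.symm | exact hec hxy | exact hec hxy.symm
          | exact hed hxy | exact hed hxy.symm | exact n1 hxy | exact n1 hxy.symm
          | exact n2 hxy | exact n2 hxy.symm | exact n3 hxy | exact n3 hxy.symm
          | exact n4 hxy | exact n4 hxy.symm | exact n5 hxy | exact n5 hxy.symm
          | exact n6 hxy | exact n6 hxy.symm | exact n7 hxy | exact n7 hxy.symm)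

lemma compl_contains {V : Type} (G : SimpleGraph V) (W : Finset V) (hW : Ind G W) (n : ℕ)
    (hn : n ≤ W.card) : (completeGraph (Fin n)) ⊑ Gᶜ := by
  obtain ⟨f⟩ : Nonempty (Fin n ↪ ↥W) := by
    apply Function.Embedding.nonempty_of_card_le
    rw [Fintype.card_fin, Fintype.card_coe]
    exact hn
  refine ⟨⟨⟨fun i => (f i).1, ?_⟩, ?_⟩⟩
  · intro i j hij
    rw [SimpleGraph.compl_adj]
    refine ⟨fun h => hij (f.injective (Subtype.ext h)), hW _ (f i).2 _ (f j).2⟩
  · intro i j hij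
    exact f.injective (Subtype.ext hij)

lemma complete_mono {V : Type} (G : SimpleGraph V) (n m : ℕ) (h : n ≤ m)
    (hm : (completeGraph (Fin m)) ⊑ G) : (completeGraph (Fin n)) ⊑ G := by
  have : (completeGraph (Fin n)) ⊑ (completeGraph (Fin m)) := by
    refine ⟨⟨⟨Fin.castLE h, ?_⟩, Fin.castLE_injective h⟩⟩
    intro i j hij
    exact fun h' => hij (Fin.castLE_injective h h')
  exact this.trans hm

lemma large_case (n : ℕ) (hn : (32768 : ℝ) ^ 8 ≤ n) (N : ℕ)
    (hN : Real.sqrt C0 * ((n : ℝ) / Real.log n) ^ (5 / 2 : ℝ) < N) (G : SimpleGraph (Fin N)) :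
    K4star ⊑ G ∨ (completeGraph (Fin n)) ⊑ Gᶜ := by
  by_contra hcon
  rw [not_or] at hcon
  obtain ⟨h1, h2⟩ := hcon
  have hF : Free G := by
    by_contra h
    exact h1 (contains_of_not_free G h)
  have hn1 : (1 : ℝ) < n := lt_of_lt_of_le (by norm_num) hn
  have hn0 : (0 : ℝ) < n := by linarith
  set L : ℝ := Real.log n with hL
  have hexp : Real.exp L = n := Real.exp_log hn0
  have hlog8 : 8 * Real.log 32768 ≤ L := by
    have := Real.log_le_log (by norm_num) hn
    rwa [Real.log_pow] at this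
  have hu : 32768 ≤ Real.exp (L / 8) := by
    have h3 : Real.log 32768 ≤ L / 8 := by linarith
    calc (32768 : ℝ) = Real.exp (Real.log 32768) := (Real.exp_log (by norm_num)).symm
      _ ≤ Real.exp (L / 8) := Real.exp_le_exp.mpr h3
  have hL1 : 1 ≤ L := by
    have h4 : Real.exp 1 ≤ n := by
      have := Real.exp_one_lt_d9
      linarith [show (3 : ℝ) ≤ 32768 ^ 8 by norm_num]
    have := Real.log_le_log (Real.exp_pos 1) h4
    rwa [Real.log_exp] at this
  have hL0 : 0 < L := by linarith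
  have hα : ∀ W : Finset (Fin N), Ind G W → (W.card : ℝ) < Real.exp L := by
    intro W hW
    rw [hexp]
    by_contra h
    rw [not_lt] at h
    exact h2 (compl_contains G W hW n (by exact_mod_cast h))
  have hc := core G hF L hL1 hu hα
  rw [Fintype.card_fin, hexp] at hc
  have hC0 : (0 : ℝ) < C0 := by unfold C0; norm_num
  set x : ℝ := ((n : ℝ) / L) ^ (5 / 2 : ℝ) with hx
  have hx0 : 0 ≤ x := Real.rpow_nonneg (by positivity) _
  have hx2 : x ^ 2 = (n : ℝ) ^ 5 / L ^ 5 := by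
    rw [hx, ← Real.rpow_natCast, ← Real.rpow_mul (by positivity)]
    have : (5 / 2 : ℝ) * ((2 : ℕ) : ℝ) = ((5 : ℕ) : ℝ) := by push_cast; norm_num
    rw [this, Real.rpow_natCast, div_pow]
  have h5 : (Real.sqrt C0 * x) ^ 2 < (N : ℝ) ^ 2 :=
    pow_lt_pow_left₀ hN (by positivity) (by norm_num)
  rw [mul_pow, Real.sq_sqrt hC0.le, hx2] at h5
  have : C0 * (n : ℝ) ^ 5 / L ^ 5 = C0 * ((n : ℝ) ^ 5 / L ^ 5) := by ring
  linarith

theorem main : ∃ C : ℝ, ∀ n : ℕ, 2 ≤ n → ∃ N : ℕ,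
    IsRamseyNumber K4star (completeGraph (Fin n)) N ∧
      (N : ℝ) ≤ C * ((n : ℝ) / Real.log n) ^ (5 / 2 : ℝ) := by
  classical
  have hC0 : (0 : ℝ) < C0 := by unfold C0; norm_num
  have hs0 : 0 < Real.sqrt C0 := Real.sqrt_pos.mpr hC0
  -- (n / log n) ^ (5/2) >= 1
  have hge : ∀ n : ℕ, 2 ≤ n → 1 ≤ ((n : ℝ) / Real.log n) ^ (5 / 2 : ℝ) := by
    intro n hn
    have hn2 : (2 : ℝ) ≤ n := by exact_mod_cast hn
    have hlog : 0 < Real.log n := Real.log_pos (by linarith)
    have h1 : Real.log n ≤ n := by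
      have := Real.log_le_sub_one_of_pos (show (0 : ℝ) < n by linarith)
      linarith
    have h2 : 1 ≤ (n : ℝ) / Real.log n := by rw [le_div_iff₀ hlog]; linarith
    exact Real.one_le_rpow h2 (by norm_num)
  -- the upper bound for large n
  have hbig : ∀ n : ℕ, (32768 : ℝ) ^ 8 ≤ n → ∃ M : ℕ,
      (∀ G : SimpleGraph (Fin M), K4star ⊑ G ∨ (completeGraph (Fin n)) ⊑ Gᶜ) ∧
      (M : ℝ) ≤ (Real.sqrt C0 + 1) * ((n : ℝ) / Real.log n) ^ (5 / 2 : ℝ) := by
    intro n hn
    have hn2 : 2 ≤ n := by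
      have : (2 : ℝ) ≤ n := le_trans (by norm_num) hn
      exact_mod_cast this
    have hx1 := hge n hn2
    refine ⟨⌊Real.sqrt C0 * ((n : ℝ) / Real.log n) ^ (5 / 2 : ℝ)⌋₊ + 1, ?_, ?_⟩
    · apply large_case n hn
      push_cast
      exact Nat.lt_floor_add_one _
    · push_cast
      have := Nat.floor_le (show 0 ≤ Real.sqrt C0 * ((n : ℝ) / Real.log n) ^ (5 / 2 : ℝ) by
        positivity)
      linarith
  set n0 : ℕ := 32768 ^ 8 with hn0
  have hn0r : ((n0 : ℕ) : ℝ) = (32768 : ℝ) ^ 8 := by rw [hn0]; push_cast; ring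
  set C1 : ℝ := (Real.sqrt C0 + 1) * ((n0 : ℝ) / Real.log n0) ^ (5 / 2 : ℝ) with hC1
  have hC1' : Real.sqrt C0 + 1 ≤ C1 := by
    have h1 := hge n0 (by rw [hn0]; norm_num)
    rw [hC1]
    nlinarith
  refine ⟨C1, fun n hn => ?_⟩
  have hx1 := hge n hn
  obtain ⟨M, hM, hMb⟩ : ∃ M : ℕ,
      (∀ G : SimpleGraph (Fin M), K4star ⊑ G ∨ (completeGraph (Fin n)) ⊑ Gᶜ) ∧
      (M : ℝ) ≤ C1 * ((n : ℝ) / Real.log n) ^ (5 / 2 : ℝ) := by
    rcases le_total n0 n with h | h
    · obtain ⟨M, hM, hMb⟩ := hbig n (by rw [← hn0r]; exact_mod_cast h)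
      refine ⟨M, hM, hMb.trans ?_⟩
      exact mul_le_mul_of_nonneg_right hC1' (by linarith)
    · obtain ⟨M, hM, hMb⟩ := hbig n0 (by rw [hn0r])
      refine ⟨M, fun G => ?_, hMb.trans ?_⟩
      · rcases hM G with h1 | h1
        · exact Or.inl h1
        · exact Or.inr (complete_mono _ n n0 h h1)
      · rw [← hC1]
        have : 0 ≤ C1 := by linarith
        nlinarith
  have hne : ∃ M : ℕ, (∀ G : SimpleGraph (Fin M), K4star ⊑ G ∨ (completeGraph (Fin n)) ⊑ Gᶜ) :=
    ⟨M, hM⟩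
  refine ⟨Nat.find hne, ⟨Nat.find_spec hne, fun k hk => Nat.find_min' hne hk⟩, ?_⟩
  have : Nat.find hne ≤ M := Nat.find_min' hne hM
  have h3 : ((Nat.find hne : ℕ) : ℝ) ≤ M := by exact_mod_cast this
  exact h3.trans hMb

end Pool.Agent.H51.K4S
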