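import Pool.Agent.H51.K4S.Alon

/-!
# H51.K4S.Samp: independent sets in graphs with few triangles
-/

namespace Pool.Agent.H51.K4S

open Finset

variable {V : Type*} [Fintype V] [DecidableEq V]

/-- alon inside a set of vertices. -/
theorem alon_on (G : SimpleGraph V) (U : Finset V)
    (htf : ∀ a ∈ U, ∀ b ∈ U, ∀ c ∈ U, G.Adj a b → G.Adj b c → G.Adj a c → False)
    (d : ℝ) (hd : 1 ≤ d) (hdeg : ∀ v ∈ U, ((nb G v ∩ U).card : ℝ) ≤ d) :
    ∃ W : Finset V, W ⊆ U ∧ Ind G W ∧ (U.card : ℝ) * Real.log d / (16 * d) ≤ W.card := by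
  classical
  set H : SimpleGraph ↥U := G.comap (fun x => x.1) with hH
  have hadj : ∀ a b : ↥U, H.Adj a b ↔ G.Adj a.1 b.1 := fun a b => Iff.rfl
  obtain ⟨W, hW, hWc⟩ := alon H (fun a b c h1 h2 h3 =>
    htf a.1 a.2 b.1 b.2 c.1 c.2 h1 h2 h3) d hd (by
      intro v
      have : (nb H v).card = (nb G v.1 ∩ U).card := by
        rw [← Finset.card_map (Function.Embedding.subtype _)]
        congr 1
        ext w
        simp only [Finset.mem_map, mem_nb, Function.Embedding.subtype_apply, Finset.mem_inter]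
        constructor
        · rintro ⟨a, ha, rfl⟩
          exact ⟨ha, a.2⟩
        · rintro ⟨h1, h2⟩
          exact ⟨⟨w, h2⟩, h1, rfl⟩
      rw [this]
      exact hdeg v.1 v.2)
  refine ⟨W.map (Function.Embedding.subtype _), ?_, ?_, ?_⟩
  · intro x hx
    obtain ⟨a, _, rfl⟩ := Finset.mem_map.mp hx
    exact a.2
  · intro x hx y hy
    obtain ⟨a, ha, rfl⟩ := Finset.mem_map.mp hx
    obtain ⟨b, hb, rfl⟩ := Finset.mem_map.mp hy
    exact hW a ha b hb
  · rw [Finset.card_map]
    rw [Fintype.card_coe] at hWc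
    exact hWc

/-- ordered adjacent pairs in U -/
noncomputable def P2 (G : SimpleGraph V) (U : Finset V) : Finset (V × V) := by
  classical exact (univ : Finset (V × V)).filter (fun p => p.1 ∈ U ∧ p.2 ∈ U ∧ G.Adj p.1 p.2)

/-- ordered triangles in U -/
noncomputable def P3 (G : SimpleGraph V) (U : Finset V) : Finset (V × V × V) := by
  classical exact (univ : Finset (V × V × V)).filter (fun p => p.1 ∈ U ∧ p.2.1 ∈ U ∧ p.2.2 ∈ U ∧
    G.Adj p.1 p.2.1 ∧ G.Adj p.2.1 p.2.2 ∧ G.Adj p.1 p.2.2)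

lemma mem_P2 (G : SimpleGraph V) (U : Finset V) (p : V × V) :
    p ∈ P2 G U ↔ p.1 ∈ U ∧ p.2 ∈ U ∧ G.Adj p.1 p.2 := by
  classical simp [P2]

lemma mem_P3 (G : SimpleGraph V) (U : Finset V) (p : V × V × V) :
    p ∈ P3 G U ↔ p.1 ∈ U ∧ p.2.1 ∈ U ∧ p.2.2 ∈ U ∧
    G.Adj p.1 p.2.1 ∧ G.Adj p.2.1 p.2.2 ∧ G.Adj p.1 p.2.2 := by
  classical simp [P3]

/-- the functions with value 0 on S -/
lemma card_zero_on (k : ℕ) (S : Finset V) :
    ((univ : Finset (V → Fin (k + 1))).filter (fun f => ∀ x ∈ S, f x = 0)).card =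
      (k + 1) ^ (Fintype.card V - S.card) := by
  classical
  have : (univ : Finset (V → Fin (k + 1))).filter (fun f => ∀ x ∈ S, f x = 0) =
      Fintype.piFinset (fun x => if x ∈ S then ({0} : Finset (Fin (k + 1))) else univ) := by
    ext f
    simp only [Finset.mem_filter, Finset.mem_univ, true_and, Fintype.mem_piFinset]
    constructor
    · intro h x
      by_cases hx : x ∈ S
      · rw [if_pos hx, Finset.mem_singleton]; exact h x hx
      · rw [if_neg hx]; exact Finset.mem_univ _
    · intro h x hx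
      have := h x
      rw [if_pos hx, Finset.mem_singleton] at this
      exact this
  rw [this, Fintype.card_piFinset]
  have e : ∀ x : V, (if x ∈ S then ({0} : Finset (Fin (k + 1))) else univ).card =
      if x ∈ S then 1 else (k + 1) := by
    intro x
    split_ifs <;> simp
  simp_rw [e]
  rw [Finset.prod_ite]
  simp only [Finset.prod_const_one, one_mul, Finset.prod_const]
  congr 1
  have : (univ : Finset V).filter (fun x => x ∉ S) = Sᶜ := by
    ext x; simp
  rw [this, Finset.card_compl]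

lemma card_zero_on_real (k : ℕ) (S : Finset V) :
    ((((univ : Finset (V → Fin (k + 1))).filter (fun f => ∀ x ∈ S, f x = 0)).card : ℕ) : ℝ) =
      (k + 1 : ℝ) ^ Fintype.card V / (k + 1 : ℝ) ^ S.card := by
  rw [card_zero_on]
  have hS : S.card ≤ Fintype.card V := Finset.card_le_univ S
  push_cast
  rw [pow_sub₀ _ (by positivity) hS]
  rfl

/-- sampling -/
lemma sample (G : SimpleGraph V) (k : ℕ) (a b : ℝ) :
    ∃ U : Finset V, (Fintype.card V : ℝ) / (k + 1) - a * (P2 G univ).card / (k + 1) ^ 2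
      - b * (P3 G univ).card / (k + 1) ^ 3 ≤ (U.card : ℝ) - a * (P2 G U).card - b * (P3 G U).card := by
  classical
  by_contra hcon
  push Not at hcon
  set c : ℝ := (Fintype.card V : ℝ) / (k + 1) - a * (P2 G univ).card / (k + 1) ^ 2
      - b * (P3 G univ).card / (k + 1) ^ 3 with hc
  set U : (V → Fin (k + 1)) → Finset V := fun f => univ.filter (fun x => f x = 0) with hU
  have hmU : ∀ f x, x ∈ U f ↔ f x = 0 := by intro f x; simp [hU]
  set M : ℝ := (k + 1 : ℝ) ^ Fintype.card V with hM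
  have hk : (0 : ℝ) < (k + 1 : ℝ) := by positivity
  have hMpos : 0 < M := by positivity
  have hMcard : ((univ : Finset (V → Fin (k + 1))).card : ℝ) = M := by
    rw [Finset.card_univ, Fintype.card_fun, Fintype.card_fin]; push_cast; rfl
  have h1 : ∑ f : V → Fin (k + 1), ((U f).card : ℝ) = M / (k + 1) * Fintype.card V := by
    have : ∀ f : V → Fin (k + 1), ((U f).card : ℝ) = ∑ x : V, (if f x = 0 then (1 : ℝ) else 0) := by
      intro f
      rw [← Finset.sum_filter, Finset.sum_const, nsmul_eq_mul, mul_one]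
    simp_rw [this]
    rw [Finset.sum_comm]
    have : ∀ x : V, ∑ f : V → Fin (k + 1), (if f x = 0 then (1 : ℝ) else 0) = M / (k + 1) := by
      intro x
      have h := card_zero_on_real k ({x} : Finset V)
      simp only [Finset.mem_singleton, forall_eq, Finset.card_singleton, pow_one] at h
      rw [← Finset.sum_filter, Finset.sum_const, nsmul_eq_mul, mul_one]
      exact h
    simp_rw [this]
    rw [Finset.sum_const, Finset.card_univ, nsmul_eq_mul]; ring
  have h2 : ∑ f : V → Fin (k + 1), ((P2 G (U f)).card : ℝ) = M / (k + 1) ^ 2 * (P2 G univ).card := by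
    have : ∀ f : V → Fin (k + 1), ((P2 G (U f)).card : ℝ) =
        ∑ p ∈ P2 G univ, (if ∀ x ∈ ({p.1, p.2} : Finset V), f x = 0 then (1 : ℝ) else 0) := by
      intro f
      rw [← Finset.sum_filter, Finset.sum_const, nsmul_eq_mul, mul_one]
      congr 2
      ext p
      simp only [mem_P2, Finset.mem_filter, Finset.mem_univ, true_and, hmU, Finset.mem_insert,
        Finset.mem_singleton, forall_eq_or_imp, forall_eq]
      tauto
    simp_rw [this]
    rw [Finset.sum_comm]
    have : ∀ p ∈ P2 G univ, ∑ f : V → Fin (k + 1),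
        (if ∀ x ∈ ({p.1, p.2} : Finset V), f x = 0 then (1 : ℝ) else 0) = M / (k + 1) ^ 2 := by
      intro p hp
      have h := card_zero_on_real k ({p.1, p.2} : Finset V)
      have hne : p.1 ≠ p.2 := ((mem_P2 G univ p).mp hp).2.2.ne
      rw [Finset.card_pair hne] at h
      rw [← Finset.sum_filter, Finset.sum_const, nsmul_eq_mul, mul_one]
      exact h
    rw [Finset.sum_congr rfl this, Finset.sum_const, nsmul_eq_mul]; ring
  have h3 : ∑ f : V → Fin (k + 1), ((P3 G (U f)).card : ℝ) = M / (k + 1) ^ 3 * (P3 G univ).card := by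
    have : ∀ f : V → Fin (k + 1), ((P3 G (U f)).card : ℝ) =
        ∑ p ∈ P3 G univ, (if ∀ x ∈ ({p.1, p.2.1, p.2.2} : Finset V), f x = 0 then (1 : ℝ) else 0) := by
      intro f
      rw [← Finset.sum_filter, Finset.sum_const, nsmul_eq_mul, mul_one]
      congr 2
      ext p
      simp only [mem_P3, Finset.mem_filter, Finset.mem_univ, true_and, hmU, Finset.mem_insert,
        Finset.mem_singleton, forall_eq_or_imp, forall_eq]
      tauto
    simp_rw [this]
    rw [Finset.sum_comm]
    have : ∀ p ∈ P3 G univ, ∑ f : V → Fin (k + 1),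
        (if ∀ x ∈ ({p.1, p.2.1, p.2.2} : Finset V), f x = 0 then (1 : ℝ) else 0) = M / (k + 1) ^ 3 := by
      intro p hp
      have h := card_zero_on_real k ({p.1, p.2.1, p.2.2} : Finset V)
      obtain ⟨_, _, _, h12, h23, h13⟩ := (mem_P3 G univ p).mp hp
      have hc3 : ({p.1, p.2.1, p.2.2} : Finset V).card = 3 :=
        Finset.card_eq_three.mpr ⟨p.1, p.2.1, p.2.2, h12.ne, h13.ne, h23.ne, rfl⟩
      rw [hc3] at h
      rw [← Finset.sum_filter, Finset.sum_const, nsmul_eq_mul, mul_one]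
      exact h
    rw [Finset.sum_congr rfl this, Finset.sum_const, nsmul_eq_mul]; ring
  have hlt : ∑ f : V → Fin (k + 1), (((U f).card : ℝ) - a * (P2 G (U f)).card
      - b * (P3 G (U f)).card) < ∑ f : V → Fin (k + 1), c :=
    Finset.sum_lt_sum_of_nonempty Finset.univ_nonempty (fun f _ => hcon (U f))
  rw [Finset.sum_sub_distrib, Finset.sum_sub_distrib, ← Finset.mul_sum, ← Finset.mul_sum, h1, h2, h3,
    Finset.sum_const, nsmul_eq_mul, hMcard, hc] at hlt
  have : M / (k + 1) * Fintype.card V - a * (M / (k + 1) ^ 2 * (P2 G univ).card)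
      - b * (M / (k + 1) ^ 3 * (P3 G univ).card) = M * ((Fintype.card V : ℝ) / (k + 1)
      - a * (P2 G univ).card / (k + 1) ^ 2 - b * (P3 G univ).card / (k + 1) ^ 3) := by
    field_simp
  linarith

lemma P2_mono (G : SimpleGraph V) {U U' : Finset V} (h : U ⊆ U') : (P2 G U).card ≤ (P2 G U').card := by
  apply Finset.card_le_card
  intro p hp
  rw [mem_P2] at hp ⊢
  exact ⟨h hp.1, h hp.2.1, hp.2.2⟩

lemma P2_eq_sum (G : SimpleGraph V) (U : Finset V) :
    (P2 G U).card = ∑ v ∈ U, (nb G v ∩ U).card := by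
  classical
  have : P2 G U = (U.sigma (fun v => nb G v ∩ U)).map
      ⟨fun x => (x.1, x.2), fun x y h => by
        cases x; cases y; simp only [Prod.mk.injEq] at h; obtain ⟨rfl, rfl⟩ := h; rfl⟩ := by
    ext ⟨u, w⟩
    simp only [mem_P2, Finset.mem_map, Finset.mem_sigma, Finset.mem_inter, mem_nb]
    constructor
    · rintro ⟨h1, h2, h3⟩
      exact ⟨⟨u, w⟩, ⟨h1, h3, h2⟩, rfl⟩
    · rintro ⟨⟨u', w'⟩, ⟨h1, h3, h2⟩, h⟩
      obtain ⟨rfl, rfl⟩ := Prod.mk.inj h
      exact ⟨h1, h2, h3⟩
  rw [this, Finset.card_map, Finset.card_sigma]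

/-- Markov: at least half of the vertices of U have at most 2 P2 / |U| neighbours in U. -/
lemma half_low (G : SimpleGraph V) (U : Finset V) (D : ℝ) (hD : 0 < D)
    (h : ((P2 G U).card : ℝ) ≤ D * U.card) :
    (U.card : ℝ) / 2 ≤ ((U.filter (fun v => ((nb G v ∩ U).card : ℝ) ≤ 2 * D)).card : ℝ) := by
  classical
  have h1 : ((P2 G U).card : ℝ) = ∑ v ∈ U, ((nb G v ∩ U).card : ℝ) := by
    rw [P2_eq_sum]; push_cast; rfl
  have h2 : ∑ v ∈ U.filter (fun v => ¬ ((nb G v ∩ U).card : ℝ) ≤ 2 * D), (2 * D) ≤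
      ∑ v ∈ U, ((nb G v ∩ U).card : ℝ) := by
    calc ∑ v ∈ U.filter (fun v => ¬ ((nb G v ∩ U).card : ℝ) ≤ 2 * D), (2 * D)
        ≤ ∑ v ∈ U.filter (fun v => ¬ ((nb G v ∩ U).card : ℝ) ≤ 2 * D), ((nb G v ∩ U).card : ℝ) := by
          apply Finset.sum_le_sum
          intro v hv
          have := (Finset.mem_filter.mp hv).2
          push Not at this
          exact this.le
      _ ≤ ∑ v ∈ U, ((nb G v ∩ U).card : ℝ) := by
          apply Finset.sum_le_sum_of_subset_of_nonneg (Finset.filter_subset _ _)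
          intro v _ _; positivity
  rw [Finset.sum_const, nsmul_eq_mul, ← h1] at h2
  have h3 := Finset.card_filter_add_card_filter_not (s := U)
    (fun v => ((nb G v ∩ U).card : ℝ) ≤ 2 * D)
  have h4 : ((U.filter (fun v => ((nb G v ∩ U).card : ℝ) ≤ 2 * D)).card : ℝ) +
      ((U.filter (fun v => ¬ ((nb G v ∩ U).card : ℝ) ≤ 2 * D)).card : ℝ) = U.card := by
    exact_mod_cast h3
  have h5 : ((U.filter (fun v => ¬ ((nb G v ∩ U).card : ℝ) ≤ 2 * D)).card : ℝ) ≤ U.card / 2 := by
    by_contra hc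
    rw [not_le] at hc
    have : (U.card : ℝ) / 2 * (2 * D) <
        ((U.filter (fun v => ¬ ((nb G v ∩ U).card : ℝ) ≤ 2 * D)).card : ℝ) * (2 * D) :=
      mul_lt_mul_of_pos_right hc (by linarith)
    nlinarith
  linarith

/-- Few triangles: independent set of size N log(16 D/m) / (2048 D). -/
theorem sparse (G : SimpleGraph V) (k : ℕ) (D T : ℝ) (hD : 0 < D) (hkD : (k + 1 : ℝ) ≤ 16 * D)
    (h2 : ((P2 G univ).card : ℝ) ≤ D * Fintype.card V)
    (h3 : ((P3 G univ).card : ℝ) ≤ T * Fintype.card V) (hT : 8 * T ≤ (k + 1 : ℝ) ^ 2) :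
    ∃ W : Finset V, Ind G W ∧
      (Fintype.card V : ℝ) * Real.log (16 * D / (k + 1)) / (2048 * D) ≤ W.card := by
  classical
  set m : ℝ := (k + 1 : ℝ) with hm
  have hm0 : 0 < m := by positivity
  set N : ℝ := (Fintype.card V : ℝ) with hN
  have hN0 : 0 ≤ N := by positivity
  obtain ⟨U, hU⟩ := sample G k (m / (4 * D)) 2
  rw [← hN, ← hm] at hU
  have e2 : m / (4 * D) * (P2 G univ).card / m ^ 2 ≤ N / (4 * m) := by
    have : m / (4 * D) * (P2 G univ).card / m ^ 2 ≤ m / (4 * D) * (D * N) / m ^ 2 := by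
      apply div_le_div_of_nonneg_right _ (by positivity)
      exact mul_le_mul_of_nonneg_left h2 (by positivity)
    refine this.trans (le_of_eq ?_)
    field_simp
  have e3 : 2 * ((P3 G univ).card : ℝ) / m ^ 3 ≤ N / (4 * m) := by
    rw [div_le_div_iff₀ (by positivity) (by positivity)]
    have h4 : 2 * ((P3 G univ).card : ℝ) * (4 * m) ≤ 8 * T * N * m := by nlinarith
    have h5 : 8 * T * N * m ≤ m ^ 2 * N * m := by
      apply mul_le_mul_of_nonneg_right _ hm0.le
      exact mul_le_mul_of_nonneg_right hT hN0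
    calc 2 * ((P3 G univ).card : ℝ) * (4 * m) ≤ m ^ 2 * N * m := h4.trans h5
      _ = N * m ^ 3 := by ring
  have hU1 : N / (2 * m) ≤ (U.card : ℝ) - m / (4 * D) * (P2 G U).card - 2 * (P3 G U).card := by
    have : N / (2 * m) = N / m - N / (4 * m) - N / (4 * m) := by field_simp; ring
    linarith
  have hmD : 0 < m / (4 * D) := by positivity
  have hp2 : (0 : ℝ) ≤ (P2 G U).card := by positivity
  have hp3 : (0 : ℝ) ≤ (P3 G U).card := by positivity
  have hNm : 0 ≤ N / (2 * m) := by positivity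
  have hmp : 0 ≤ m / (4 * D) * (P2 G U).card := by positivity
  have hUc : N / (2 * m) ≤ U.card := by linarith
  have hP3 : ((P3 G U).card : ℝ) ≤ U.card / 2 := by linarith
  have hP2 : ((P2 G U).card : ℝ) ≤ 4 * D / m * U.card := by
    have : m / (4 * D) * (P2 G U).card ≤ U.card := by linarith
    have h := mul_le_mul_of_nonneg_left this (show 0 ≤ 4 * D / m by positivity)
    have e : 4 * D / m * (m / (4 * D) * (P2 G U).card) = (P2 G U).card := by
      field_simp
    rw [e] at h
    exact h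
  -- remove the vertices in triangles
  set Bad : Finset V := (P3 G U).image (fun p => p.1) with hBad
  set U1 : Finset V := U \ Bad with hU1d
  have hBc : (Bad.card : ℝ) ≤ U.card / 2 := by
    have : Bad.card ≤ (P3 G U).card := Finset.card_image_le
    have : (Bad.card : ℝ) ≤ (P3 G U).card := by exact_mod_cast this
    linarith
  have hU1c : (U.card : ℝ) / 2 ≤ U1.card := by
    have h : U.card - Bad.card ≤ U1.card := Finset.le_card_sdiff Bad U
    have h' : (U.card : ℝ) - Bad.card ≤ U1.card := by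
      have h6 : U.card ≤ U1.card + Bad.card := by omega
      have : (U.card : ℝ) ≤ U1.card + Bad.card := by exact_mod_cast h6
      linarith
    linarith
  have hsub : U1 ⊆ U := Finset.sdiff_subset
  have hP2' : ((P2 G U1).card : ℝ) ≤ 8 * D / m * U1.card := by
    have h := P2_mono G hsub
    have h' : ((P2 G U1).card : ℝ) ≤ (P2 G U).card := by exact_mod_cast h
    have h7 : 4 * D / m * (U.card : ℝ) ≤ 4 * D / m * (2 * U1.card) :=
      mul_le_mul_of_nonneg_left (by linarith) (by positivity)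
    calc ((P2 G U1).card : ℝ) ≤ 4 * D / m * (2 * U1.card) := h'.trans (hP2.trans h7)
      _ = 8 * D / m * U1.card := by ring
  have hhalf := half_low G U1 (8 * D / m) (by positivity) hP2'
  set U2 : Finset V := U1.filter (fun v => ((nb G v ∩ U1).card : ℝ) ≤ 2 * (8 * D / m)) with hU2d
  have h22 : U2 ⊆ U1 := Finset.filter_subset _ _
  have hd1 : 1 ≤ 16 * D / m := by rw [le_div_iff₀ hm0]; linarith
  obtain ⟨W, _, hW, hWc⟩ := alon_on G U2 (by
    intro a ha b hb c hc hab hbc hac
    have haU := Finset.mem_sdiff.mp (h22 ha)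
    apply haU.2
    rw [hBad, Finset.mem_image]
    refine ⟨(a, b, c), ?_, rfl⟩
    rw [mem_P3]
    exact ⟨haU.1, hsub (h22 hb), hsub (h22 hc), hab, hbc, hac⟩) (16 * D / m) hd1 (by
    intro v hv
    have h8 := (Finset.mem_filter.mp hv).2
    have h9 : (nb G v ∩ U2).card ≤ (nb G v ∩ U1).card :=
      Finset.card_le_card (Finset.inter_subset_inter_left h22)
    have h10 : ((nb G v ∩ U2).card : ℝ) ≤ (nb G v ∩ U1).card := by exact_mod_cast h9
    calc ((nb G v ∩ U2).card : ℝ) ≤ 2 * (8 * D / m) := h10.trans h8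
      _ = 16 * D / m := by ring)
  refine ⟨W, hW, le_trans ?_ hWc⟩
  have hlog : 0 ≤ Real.log (16 * D / m) := Real.log_nonneg hd1
  have hU2c : N / (8 * m) ≤ U2.card := by
    have : N / (8 * m) = N / (2 * m) / 2 / 2 := by field_simp; ring
    rw [this]
    linarith
  have : N * Real.log (16 * D / m) / (2048 * D) =
      (N / (8 * m)) * Real.log (16 * D / m) / (16 * (16 * D / m)) := by
    field_simp; ring
  rw [this]
  apply div_le_div_of_nonneg_right _ (by positivity)
  exact mul_le_mul_of_nonneg_right hU2c hlog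

end Pool.Agent.H51.K4S
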