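import Pool.Agent.H51.K4S.Count

/-!
# H51.K4S.Sub: the theorem of Samp inside a set, and its two applications
-/

namespace Pool.Agent.H51.K4S

open Finset

variable {V : Type*} [Fintype V] [DecidableEq V]

theorem sparse_on (G : SimpleGraph V) (U : Finset V) (k : ℕ) (D T : ℝ) (hD : 0 < D)
    (hkD : (k + 1 : ℝ) ≤ 16 * D)
    (h2 : ((P2 G U).card : ℝ) ≤ D * U.card)
    (h3 : ((P3 G U).card : ℝ) ≤ T * U.card) (hT : 8 * T ≤ (k + 1 : ℝ) ^ 2) :
    ∃ W : Finset V, Ind G W ∧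
      (U.card : ℝ) * Real.log (16 * D / (k + 1)) / (2048 * D) ≤ W.card := by
  classical
  set H : SimpleGraph ↥U := G.comap (fun x => x.1) with hH
  have e2 : (P2 H univ).card = (P2 G U).card := by
    apply Finset.card_bij (fun p _ => (p.1.1, p.2.1))
    · rintro ⟨a, b⟩ hp
      have := (mem_P2 H _ _).mp hp
      exact (mem_P2 G _ _).mpr ⟨a.2, b.2, this.2.2⟩
    · rintro ⟨a, b⟩ _ ⟨a', b'⟩ _ h
      simp only [Prod.mk.injEq] at h
      exact Prod.ext (Subtype.ext h.1) (Subtype.ext h.2)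
    · rintro ⟨a, b⟩ hp
      obtain ⟨ha, hb, hab⟩ := (mem_P2 G _ _).mp hp
      exact ⟨(⟨a, ha⟩, ⟨b, hb⟩), (mem_P2 H _ _).mpr ⟨mem_univ _, mem_univ _, hab⟩, rfl⟩
  have e3 : (P3 H univ).card = (P3 G U).card := by
    apply Finset.card_bij (fun p _ => (p.1.1, p.2.1.1, p.2.2.1))
    · rintro ⟨a, b, c⟩ hp
      have := (mem_P3 H _ _).mp hp
      exact (mem_P3 G _ _).mpr ⟨a.2, b.2, c.2, this.2.2.2⟩
    · rintro ⟨a, b, c⟩ _ ⟨a', b', c'⟩ _ h
      simp only [Prod.mk.injEq] at h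
      exact Prod.ext (Subtype.ext h.1) (Prod.ext (Subtype.ext h.2.1) (Subtype.ext h.2.2))
    · rintro ⟨a, b, c⟩ hp
      obtain ⟨ha, hb, hc, h⟩ := (mem_P3 G _ _).mp hp
      exact ⟨(⟨a, ha⟩, ⟨b, hb⟩, ⟨c, hc⟩),
        (mem_P3 H _ _).mpr ⟨mem_univ _, mem_univ _, mem_univ _, h⟩, rfl⟩
  have hc : (Fintype.card ↥U : ℝ) = U.card := by rw [Fintype.card_coe]
  obtain ⟨W, hW, hWc⟩ := sparse H k D T hD hkD (by rw [e2, hc]; exact h2) (by rw [e3, hc]; exact h3) hT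
  refine ⟨W.map (Function.Embedding.subtype _), ?_, ?_⟩
  · intro x hx y hy
    obtain ⟨a, ha, rfl⟩ := Finset.mem_map.mp hx
    obtain ⟨b, hb, rfl⟩ := Finset.mem_map.mp hy
    exact hW a ha b hb
  · rw [Finset.card_map, ← hc]
    exact hWc

/-- few triangles: P3 <= P2 <= D |U|. -/
theorem appl_one (G : SimpleGraph V) (U : Finset V) (D : ℝ) (hD : 1 ≤ D)
    (h2 : ((P2 G U).card : ℝ) ≤ D * U.card) (h3 : ((P3 G U).card : ℝ) ≤ D * U.card) :
    ∃ W : Finset V, Ind G W ∧ (U.card : ℝ) * Real.log D / (4096 * D) ≤ W.card := by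
  have hD0 : 0 < D := by linarith
  set s : ℝ := Real.sqrt D with hs
  have hs1 : 1 ≤ s := by rw [hs, Real.one_le_sqrt]; exact hD
  have hss : s * s = D := Real.mul_self_sqrt hD0.le
  -- k + 1 = ceil (3 s)
  set k : ℕ := ⌈3 * s⌉₊ with hk
  have hk1 : 3 * s ≤ k := Nat.le_ceil _
  have hk2 : (k : ℝ) < 3 * s + 1 := Nat.ceil_lt_add_one (by linarith)
  have hk5 : (k + 1 : ℝ) ≤ 5 * s := by linarith
  have hk16 : (k + 1 : ℝ) ≤ 16 * D := by nlinarith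
  have hT : 8 * D ≤ (k + 1 : ℝ) ^ 2 := by nlinarith
  obtain ⟨W, hW, hWc⟩ := sparse_on G U k D D hD0 hk16 h2 h3 hT
  refine ⟨W, hW, le_trans ?_ hWc⟩
  have hk0 : (0 : ℝ) < k + 1 := by positivity
  have hsle : s ≤ 16 * D / (k + 1) := by
    rw [le_div_iff₀ hk0]
    nlinarith
  have hlogs : Real.log D = 2 * Real.log s := by
    rw [← hss, Real.log_mul (by linarith) (by linarith)]; ring
  have hlog : Real.log s ≤ Real.log (16 * D / (k + 1)) := Real.log_le_log (by linarith) hsle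
  have e : (U.card : ℝ) * Real.log D / (4096 * D) = (U.card : ℝ) * Real.log s / (2048 * D) := by
    rw [hlogs]; field_simp; ring
  rw [e]
  apply div_le_div_of_nonneg_right _ (by positivity)
  exact mul_le_mul_of_nonneg_left hlog (by positivity)

/-- moderately few triangles: P2 <= D |U|, P3 <= 2 D^(3/2) |U|; D = r^4. -/
theorem appl_two (G : SimpleGraph V) (U : Finset V) (r : ℝ) (hr : 1 ≤ r)
    (h2 : ((P2 G U).card : ℝ) ≤ r ^ 4 * U.card) (h3 : ((P3 G U).card : ℝ) ≤ 2 * r ^ 6 * U.card) :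
    ∃ W : Finset V, Ind G W ∧ (U.card : ℝ) * Real.log r / (2048 * r ^ 4) ≤ W.card := by
  have hr0 : 0 < r := by linarith
  have hr3 : 1 ≤ r ^ 3 := one_le_pow₀ hr
  set k : ℕ := ⌈4 * r ^ 3⌉₊ with hk
  have hk1 : 4 * r ^ 3 ≤ k := Nat.le_ceil _
  have hk2 : (k : ℝ) < 4 * r ^ 3 + 1 := Nat.ceil_lt_add_one (by positivity)
  have hk6 : (k + 1 : ℝ) ≤ 6 * r ^ 3 := by linarith
  have hr34 : r ^ 3 ≤ r ^ 4 := pow_le_pow_right₀ hr (by norm_num)
  have hk16 : (k + 1 : ℝ) ≤ 16 * r ^ 4 := by linarith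
  have hT : 8 * (2 * r ^ 6) ≤ (k + 1 : ℝ) ^ 2 := by
    have h4 : 4 * r ^ 3 ≤ (k + 1 : ℝ) := by linarith
    calc 8 * (2 * r ^ 6) = (4 * r ^ 3) ^ 2 := by ring
      _ ≤ (k + 1 : ℝ) ^ 2 := pow_le_pow_left₀ (by positivity) h4 2
  obtain ⟨W, hW, hWc⟩ := sparse_on G U k (r ^ 4) (2 * r ^ 6) (by positivity) hk16 h2 h3 hT
  refine ⟨W, hW, le_trans ?_ hWc⟩
  have hk0 : (0 : ℝ) < k + 1 := by positivity
  have hrle : r ≤ 16 * r ^ 4 / (k + 1) := by
    rw [le_div_iff₀ hk0]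
    calc r * (k + 1) ≤ r * (6 * r ^ 3) := mul_le_mul_of_nonneg_left hk6 hr0.le
      _ ≤ 16 * r ^ 4 := by nlinarith [pow_pos hr0 4]
  have hlog : Real.log r ≤ Real.log (16 * r ^ 4 / (k + 1)) := Real.log_le_log hr0 hrle
  apply div_le_div_of_nonneg_right _ (by positivity)
  exact mul_le_mul_of_nonneg_left hlog (by positivity)

lemma P3_le_sum (G : SimpleGraph V) (U : Finset V) :
    (P3 G U).card ≤ ∑ v ∈ U, (P2 G (nb G v)).card := by
  classical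
  have h : P3 G U ⊆ (U.biUnion (fun v => (P2 G (nb G v)).image (fun p => (v, p.1, p.2)))) := by
    rintro ⟨a, b, c⟩ hp
    obtain ⟨ha, hb, hc, hab, hbc, hac⟩ := (mem_P3 G _ _).mp hp
    simp only [Finset.mem_biUnion, Finset.mem_image]
    refine ⟨a, ha, (b, c), ?_, rfl⟩
    rw [mem_P2, mem_nb, mem_nb]
    exact ⟨hab, hac, hbc⟩
  calc (P3 G U).card ≤ _ := Finset.card_le_card h
    _ ≤ ∑ v ∈ U, ((P2 G (nb G v)).image (fun p => (v, p.1, p.2))).card := Finset.card_biUnion_le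
    _ ≤ ∑ v ∈ U, (P2 G (nb G v)).card := Finset.sum_le_sum (fun v _ => Finset.card_image_le)

end Pool.Agent.H51.K4S
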